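import Mathlib
import Pool.Agent.W936.RO.Ext

/-!
Adding a polynomial in few variables to a polynomial in products of bounded transcendence degree.
-/

namespace Pool.Agent.W936.NG

open MvPolynomial Pool.Agent.H530R2 Pool.Agent.W936.RO

open Pool.Agent.H626R2.Loc (BddTrG)

variable {F : Type} [Field F] {n : ℕ}

theorem bddTr_add {Cc : MvPolynomial (Fin n) F → Prop} {κ w : ℕ} {f e : MvPolynomial (Fin n) F}
    {S : Finset (Fin n)} (hS : S.card ≤ w) (he : e ∈ supported F (S : Set (Fin n)))
    (hX : ∀ i ∈ S, Cc (X i)) (hf : BddTrG Cc κ f) : BddTrG Cc (κ + w) (f + e) := by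
  classical
  obtain ⟨N, T, hT, hdep, hmem⟩ := hf
  set T' : Fin (N + S.card) → Multiset (MvPolynomial (Fin n) F) :=
    Fin.append T (fun j => {X (S.equivFin.symm j : Fin n)}) with hT'
  have hl : ∀ i : Fin N, T' (Fin.castAdd _ i) = T i := fun i => Fin.append_left _ _ i
  have hr : ∀ j : Fin S.card, T' (Fin.natAdd _ j) = {X (S.equivFin.symm j : Fin n)} :=
    fun j => Fin.append_right _ _ j
  refine ⟨N + S.card, T', ?_, ?_, ?_⟩
  · intro i
    refine Fin.addCases (fun i => ?_) (fun j => ?_) i
    · rw [hl]
      exact hT i
    · rw [hr]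
      intro g hg
      rw [Multiset.mem_singleton.1 hg]
      exact hX _ (S.equivFin.symm j).2
  · intro u hu
    have hinj : Function.Injective u := by
      intro a b hab
      exact hu.injective (by
        show (T' (u a)).prod = (T' (u b)).prod
        rw [hab])
    set A : Finset (Fin (κ + w + 1)) := Finset.univ.filter fun a => (u a).val < N with hA
    have hAc : κ + 1 ≤ A.card := by
      have h1 : (Finset.univ.filter fun a => ¬ (u a).val < N).card ≤ S.card := by
        have h2 : (Finset.univ.filter fun a => ¬ (u a).val < N).card ≤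
            (Finset.range S.card).card := by
          refine Finset.card_le_card_of_injOn (fun a => (u a).val - N) ?_ ?_
          · intro a ha
            have ha' : ¬ (u a).val < N := (Finset.mem_filter.1 (Finset.mem_coe.1 ha)).2
            have := (u a).2
            refine Finset.mem_coe.2 (Finset.mem_range.2 ?_)
            show (u a).val - N < S.card
            omega
          · intro a ha b hb hab
            have ha' : ¬ (u a).val < N := (Finset.mem_filter.1 (Finset.mem_coe.1 ha)).2
            have hb' : ¬ (u b).val < N := (Finset.mem_filter.1 (Finset.mem_coe.1 hb)).2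
            simp only at hab
            apply hinj
            apply Fin.ext
            omega
        rwa [Finset.card_range] at h2
      have h3 := Finset.card_filter_add_card_filter_not
        (s := (Finset.univ : Finset (Fin (κ + w + 1)))) (fun a => (u a).val < N)
      rw [Finset.card_univ, Fintype.card_fin] at h3
      have h4 : A.card = (Finset.univ.filter fun a => (u a).val < N).card := rfl
      omega
    set v := A.orderEmbOfCardLe hAc with hv
    have hvA : ∀ b, (u (v b)).val < N := fun b =>
      (Finset.mem_filter.1 (Finset.orderEmbOfCardLe_mem A hAc b)).2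
    apply hdep (fun b => ⟨(u (v b)).val, hvA b⟩)
    have h5 := hu.comp v v.injective
    convert h5 using 2 with b
    show (T ⟨(u (v b)).val, hvA b⟩).prod = (T' (u (v b))).prod
    rw [← hl]
    rfl
  · refine Subalgebra.add_mem _ ?_ ?_
    · refine Algebra.adjoin_mono ?_ hmem
      rintro _ ⟨i, rfl⟩
      refine ⟨Fin.castAdd _ i, ?_⟩
      show (T' (Fin.castAdd _ i)).prod = _
      rw [hl]
    · have he' : e ∈ Algebra.adjoin F (X '' (S : Set (Fin n)) : Set (MvPolynomial (Fin n) F)) :=
        he
      refine Algebra.adjoin_mono ?_ he'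
      rintro _ ⟨i, hi, rfl⟩
      refine ⟨Fin.natAdd _ (S.equivFin ⟨i, Finset.mem_coe.1 hi⟩), ?_⟩
      show (T' (Fin.natAdd _ (S.equivFin ⟨i, Finset.mem_coe.1 hi⟩))).prod = _
      rw [hr, Multiset.prod_singleton, Equiv.symm_apply_apply]

end Pool.Agent.W936.NG
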