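import Mathlib
import Pool.Agent.W936.NG.Trd
import Pool.Agent.Results.MP_c2aa42_lc.SumsOfSparseFormulas

/-!
Gates whose arguments share few variables over sums of products.
-/

namespace Pool.Agent.W936.NG

open MvPolynomial Module Pool.Agent.H530R2 Pool.Agent.W936.RO

open Pool.Agent.H626R2.Loc (BddTrG evG base)

open Pool.Agent.Results.MP_c2aa42_lc.SumsOfSparseFormulas

variable {n : ℕ}

section vars

theorem prog_X {w s D : ℕ} (hw : 1 ≤ w) (hs : 1 ≤ s) (i : Fin n) :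
    Prog w s D (X i : MvPolynomial (Fin n) ℂ) := by
  induction D with
  | zero =>
    refine .sparse ?_ (Or.inl ?_)
    · have h1 : (X i : MvPolynomial (Fin n) ℂ).support = {Finsupp.single i 1} := support_X
      rw [h1, Finset.card_singleton]
      exact hs
    · rw [vars_X, Finset.card_singleton]
  | succ D ih =>
    have h1 : (X i : MvPolynomial (Fin n) ℂ) =
        aeval (contents (fun _ : Fin 1 => (1 : ℂ)) (fun _ => Matrix.of fun _ _ => X i) 1)
          (X 0 : MvPolynomial (Fin 1) ℂ) := by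
      rw [aeval_X]
      simp [contents, Matrix.vecMul, dotProduct]
    rw [h1]
    refine .program _ _ 1 _ hw (fun x => ?_) (fun _ _ _ => ih)
    refine le_trans (Finset.card_filter_le _ _) ?_
    rw [Finset.card_range]
    exact hw

theorem comp_X {w s D t : ℕ} (hw : 1 ≤ w) (hs : 1 ≤ s) (i : Fin n) :
    Composite w s D t (X i : MvPolynomial (Fin n) ℂ) := by
  refine ⟨fun _ => .leaf (X i), X ⟨0, hw⟩, fun _ => ⟨prog_X hw hs i, fun x => ?_,
    .spine (.leaf t _)⟩, ?_⟩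
  · simp only [Formula.reads]
    split_ifs
    · exact hw
    · exact Nat.zero_le _
  · rw [aeval_X]
    rfl

end vars

/-- The hitting theorem for sums of products, up to polynomials in few variables. -/
theorem sums_hitS (w D κ : ℕ) : ∃ A m : ℕ, ∀ n s t : ℕ, ∀ f : MvPolynomial (Fin n) ℂ,
    Sums w s D t κ f → ∀ S : Finset (Fin n), S.card ≤ w →
      ∀ e ∈ supported (RatFunc ℂ) (S : Set (Fin n)), sext f + e ≠ 0 →
        sext f + e ∉ (bVan n ((s + 3) ^ A)).I (m * (t + 1)) ∅ := by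
  classical
  by_contra hcon
  push Not at hcon
  choose n_ s_ t_ f_ hf_ S_ hS_ e_ he_ h0_ hev using fun k => hcon k k
  set 𝔎 : Fam (RatFunc ℂ) := fam n_ (fun k => (s_ k + 1 + 2) ^ k) (fun k => s_ k + 1)
    (fun k => le_rfl) with h𝔎
  obtain ⟨m, hm⟩ := rank_hit3 (F := RatFunc ℂ) (up 𝔎 D) (κ + w) (w + 1) w (nc w (κ + w) D) w
    (bd w D + (up 𝔎 D).c0) (Nat.succ_pos w)
  have hmem : ∀ f : MvPolynomial (Fin (n_ m)) ℂ, f.support.card ≤ s_ m + 1 →
      sext f ∈ 𝔎.K m (n_ m) 1 :=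
    fun f hf => fam_mem n_ (fun k => (s_ k + 1 + 2) ^ k) (fun k => s_ k + 1) (fun k => le_rfl) m hf
  have hmem' : ∀ f : MvPolynomial (Fin (n_ m)) ℂ, f.support.card ≤ s_ m →
      sext f ∈ 𝔎.K m (n_ m) 1 := fun f hf => hmem f (hf.trans (Nat.le_succ _))
  refine hm (n_ m) m (bVan (n_ m) ((s_ m + 1 + 2) ^ m))
    (fam_ok n_ (fun k => (s_ k + 1 + 2) ^ k) (fun k => s_ k + 1) (fun k => le_rfl) D m)
    (bpt (n_ m) _) 1 (sh_bVan _ _) (t_ m) (LfD 𝔎 m (n_ m) w D (κ + w)) (fun g hg => hg.1)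
    (fun y => LfD.const y) (fun A hA g hg => hg.2 A hA) (sext (f_ m) + e_ m) ?_ (h0_ m) (hev m)
  refine bddTr_add (hS_ m) (he_ m) ?_ ?_
  · intro i hi
    have hw : 1 ≤ w := (Finset.card_pos.2 ⟨i, hi⟩).trans_le (hS_ m)
    have h1 := comp_polyIn (κ := κ + w) hmem (comp_X (t := t_ m) (D := D) hw
      (Nat.le_add_left 1 (s_ m)) i)
    rwa [map_X] at h1
  · obtain ⟨N', T, hT, hdep, hmem2⟩ := hf_ m
    have he : ∀ S : Multiset (MvPolynomial (Fin (n_ m)) ℂ), (S.map sext).prod = sext S.prod :=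
      fun S => (map_multiset_prod (sext (n := n_ m)) S).symm
    refine ⟨N', fun i => (T i).map sext, fun i g hg => ?_, fun u => ?_, ?_⟩
    · obtain ⟨g', hg', rfl⟩ := Multiset.mem_map.1 hg
      exact comp_polyIn hmem' (hT i g' hg')
    · simp only [he]
      exact ext_dep (hdep u)
    · simp only [he]
      exact ext_adjoin hmem2

/-- the property which is preserved by the gates -/
def HitS (n N m : ℕ) (S : Finset (Fin n)) (f : MvPolynomial (Fin n) ℂ) : Prop :=
  Hit (fun i : Fin n => ((i.val : ℕ) : FF (RatFunc ℂ) n)) m S (psi (bpt n N) ∅ (sext f))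

theorem hitS_of {N m : ℕ} {S : Finset (Fin n)} {f : MvPolynomial (Fin n) ℂ}
    (h : ∀ e ∈ supported (RatFunc ℂ) (S : Set (Fin n)), sext f + e ≠ 0 →
      sext f + e ∉ (bVan n N).I m ∅) : HitS n N m S f := by
  intro hmem
  have h1 : cut _ S (psi (bpt n N) ∅ (sext f)) = psi (bpt n N) ∅ (spe (bpt n N) S (sext f)) := by
    rw [cut_psi, Finset.empty_union]
  rw [h1] at hmem ⊢
  rw [← map_sub, ← mem_iff_psi] at hmem
  by_contra hne
  refine h (- spe (bpt n N) S (sext f)) (Subalgebra.neg_mem _ (spe_supported _ _ _)) ?_ ?_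
  · intro h2
    apply hne
    rw [← sub_eq_add_neg, sub_eq_zero] at h2
    exact congrArg _ h2
  · rw [← sub_eq_add_neg]
    exact hmem

theorem hitS_ne {N m : ℕ} (hm : 0 < m) {S : Finset (Fin n)} (hS : S.card < m)
    {f : MvPolynomial (Fin n) ℂ}
    (h : HitS n N m S f) (h0 : f ≠ 0) : sext f ∉ (bVan n N).I m ∅ := by
  intro hmem
  obtain ⟨G⟩ := exists_genPt (fun i : Fin n => ((i.val : ℕ) : FF (RatFunc ℂ) n))
    (ff_natInj (F := RatFunc ℂ) n) m hm
    (FractionRing (MvPolynomial (Fin m ⊕ Fin m) (FF (RatFunc ℂ) n)))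
  have hinf : Infinite (FF (RatFunc ℂ) n) :=
    Infinite.of_injective _ (algebraMap (RatFunc ℂ) (FF (RatFunc ℂ) n)).injective
  have h1 := Hit.eq_zero G (ff_natInj (F := RatFunc ℂ) n) hS h ((mem_iff_psi _ _ _ _).1 hmem)
  exact h0 (ext_inj (by rw [psi_inj _ _ h1, map_zero]))

theorem hitS_mul {N m : ℕ} {S : Finset (Fin n)} (hS : S.card < m)
    {f g : MvPolynomial (Fin n) ℂ} (hf : HitS n N m S f) (hg : HitS n N m S g) :
    HitS n N m S (f * g) := by
  obtain ⟨G⟩ := exists_genPt (fun i : Fin n => ((i.val : ℕ) : FF (RatFunc ℂ) n))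
    (ff_natInj (F := RatFunc ℂ) n) m (Nat.zero_lt_of_lt hS)
    (FractionRing (MvPolynomial (Fin m ⊕ Fin m) (FF (RatFunc ℂ) n)))
  have hinf : Infinite (FF (RatFunc ℂ) n) :=
    Infinite.of_injective _ (algebraMap (RatFunc ℂ) (FF (RatFunc ℂ) n)).injective
  show Hit _ _ _ _
  rw [map_mul, map_mul]
  exact Hit.mul G (ff_natInj (F := RatFunc ℂ) n) hS hf hg

theorem hitS_gate {N m : ℕ} {S B : Finset (Fin n)} (hB : B.card < m)
    {f g h : MvPolynomial (Fin n) ℂ} (hfg : f.vars ∩ g.vars ⊆ B)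
    (hS : S ∩ (f.vars ∪ g.vars) ⊆ B) (hf : HitS n N m B f) (hg : HitS n N m B g)
    (hh : h ∈ Algebra.adjoin ℂ (({f, g} : Set (MvPolynomial (Fin n) ℂ)) ∪
      X '' (B : Set (Fin n)))) : HitS n N m S h := by
  classical
  obtain ⟨G⟩ := exists_genPt (fun i : Fin n => ((i.val : ℕ) : FF (RatFunc ℂ) n))
    (ff_natInj (F := RatFunc ℂ) n) m (Nat.zero_lt_of_lt hB)
    (FractionRing (MvPolynomial (Fin m ⊕ Fin m) (FF (RatFunc ℂ) n)))
  have hinf : Infinite (FF (RatFunc ℂ) n) :=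
    Infinite.of_injective _ (algebraMap (RatFunc ℂ) (FF (RatFunc ℂ) n)).injective
  set U := psi (bpt n N) ∅ (sext f) with hU
  set V := psi (bpt n N) ∅ (sext g) with hV
  have hUv : U.vars ⊆ f.vars := by
    have h1 := psi_vars (bpt n N) ∅ (f := sext f) (S := (f.vars : Set (Fin n)))
      (by rw [mem_supported, ext_vars])
    exact_mod_cast mem_supported.1 h1
  have hVv : V.vars ⊆ g.vars := by
    have h1 := psi_vars (bpt n N) ∅ (f := sext g) (S := (g.vars : Set (Fin n)))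
      (by rw [mem_supported, ext_vars])
    exact_mod_cast mem_supported.1 h1
  obtain ⟨H, hH⟩ : ∃ H : MvPolynomial (Fin 2)
      (supported (FF (RatFunc ℂ) n) (B : Set (Fin n))),
      psi (bpt n N) ∅ (sext h) = aeval ![U, V] H := by
    clear hf hg hS
    induction hh using Algebra.adjoin_induction with
    | mem x hx =>
      rcases hx with hx | ⟨i, hi, rfl⟩
      · rcases hx with rfl | hx
        · exact ⟨X 0, by rw [aeval_X]; rfl⟩
        · rw [Set.mem_singleton_iff] at hx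
          subst hx
          exact ⟨X 1, by rw [aeval_X]; rfl⟩
      · refine ⟨C ⟨X i + C (algebraMap (RatFunc ℂ) (FF (RatFunc ℂ) n) (bpt n N i)),
          Subalgebra.add_mem _ (X_mem_supported.2 hi) (Subalgebra.algebraMap_mem _ _)⟩, ?_⟩
        rw [map_X, psi_not_mem _ (Finset.notMem_empty i), aeval_C]
        rfl
    | algebraMap r =>
      refine ⟨C ⟨C (algebraMap (RatFunc ℂ) (FF (RatFunc ℂ) n) (algebraMap ℂ (RatFunc ℂ) r)),
        Subalgebra.algebraMap_mem _ _⟩, ?_⟩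
      rw [MvPolynomial.algebraMap_eq, map_C, psi_C, aeval_C]
      rfl
    | add x y _ _ hx hy =>
      obtain ⟨H1, h1⟩ := hx
      obtain ⟨H2, h2⟩ := hy
      exact ⟨H1 + H2, by rw [map_add, map_add, map_add, h1, h2]⟩
    | mul x y _ _ hx hy =>
      obtain ⟨H1, h1⟩ := hx
      obtain ⟨H2, h2⟩ := hy
      exact ⟨H1 * H2, by rw [map_mul, map_mul, map_mul, h1, h2]⟩
  show Hit _ _ _ _
  rw [hH]
  refine Hit.gate G (ff_natInj (F := RatFunc ℂ) n) hB hf hg ?_ ?_ _
  · exact (Finset.inter_subset_inter hUv hVv).trans hfg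
  · exact (Finset.inter_subset_inter_left (Finset.union_subset_union hUv hVv)).trans hS

end Pool.Agent.W936.NG
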